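import Mathlib

namespace Pool.Agent.H.MP_5436b5_lc

open Relation

variable {Q A : Type}

def Stp (eL eR : Q → Finset (Q × Bool)) (eU eM : Q → A → Finset (Q × Bool)) (w : List A)
    (x y : Q × ℕ × ℕ) : Prop :=
  (x.2.1 = 0 ∧ (y.1, true) ∈ eL x.1 ∧ y.2.1 = 1 ∧ y.2.2 = x.2.2) ∨
  (x.2.1 = w.length + 1 ∧ (y.1, false) ∈ eR x.1 ∧ y.2.1 = w.length ∧ y.2.2 = x.2.2) ∨
  (∃ a : A, 1 ≤ x.2.1 ∧ w[x.2.1 - 1]? = some a ∧ ∃ b : Bool,
    (y.1, b) ∈ (if x.2.1 ≤ x.2.2 then eM x.1 a else eU x.1 a) ∧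
    y.2.1 = (if b then x.2.1 + 1 else x.2.1 - 1) ∧ y.2.2 = max x.2.2 x.2.1)

def Acc (eL eR : Q → Finset (Q × Bool)) (eU eM : Q → A → Finset (Q × Bool)) (pI : Q)
    (G : Finset Q) (w : List A) : Prop :=
  ∃ q : Q, ∃ i j : ℕ, ReflTransGen (Stp eL eR eU eM w) (pI, 1, 0) (q, i, j) ∧
    i = w.length + 1 ∧ ∃ q' ∈ G, (q', true) ∈ eR q

variable {eL eR : Q → Finset (Q × Bool)} {eU eM : Q → A → Finset (Q × Bool)} {pI : Q}
  {G : Finset Q}

theorem acc_map {B : Type} (e : B → A) (w : List B) : Acc eL eR eU eM pI G (w.map e) ↔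
    Acc eL eR (fun q a => eU q (e a)) (fun q a => eM q (e a)) pI G w := by
  have : Stp eL eR eU eM (w.map e) =
      Stp eL eR (fun q a => eU q (e a)) (fun q a => eM q (e a)) w := by
    ext x y
    simp only [Stp, List.length_map, List.getElem?_map, Option.map_eq_some_iff]
    refine or_congr_right (or_congr_right ⟨?_, ?_⟩)
    · rintro ⟨_, h1, ⟨a, h2, rfl⟩, h3⟩
      exact ⟨a, h1, h2, h3⟩
    · rintro ⟨a, h1, h2, h3⟩
      exact ⟨_, h1, ⟨a, h2, rfl⟩, h3⟩
  simp only [Acc, this, List.length_map]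

def tr {Q' : Type} (e : Q ≃ Q') (s : Finset (Q × Bool)) : Finset (Q' × Bool) :=
  s.map (e.prodCongr (Equiv.refl _)).toEmbedding

theorem mem_tr {Q' : Type} (e : Q ≃ Q') (s : Finset (Q × Bool)) (q : Q') (b : Bool) :
    (q, b) ∈ tr e s ↔ (e.symm q, b) ∈ s := by
  simp [tr]

theorem acc_equiv {Q' : Type} (e : Q ≃ Q') (w : List A) :
    Acc (fun q => tr e (eL (e.symm q))) (fun q => tr e (eR (e.symm q)))
      (fun q a => tr e (eU (e.symm q) a)) (fun q a => tr e (eM (e.symm q) a)) (e pI)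
      (G.map e.toEmbedding) w ↔ Acc eL eR eU eM pI G w := by
  have k : ∀ x y : Q' × ℕ × ℕ, Stp (fun q => tr e (eL (e.symm q))) (fun q => tr e (eR (e.symm q)))
      (fun q a => tr e (eU (e.symm q) a)) (fun q a => tr e (eM (e.symm q) a)) w x y ↔
      Stp eL eR eU eM w (e.symm x.1, x.2) (e.symm y.1, y.2) := fun x y => by
    simp only [Stp, ← apply_ite (tr e), mem_tr]
  constructor
  · rintro ⟨q, i, j, h1, h2, q', h3, h4⟩
    refine ⟨e.symm q, i, j, ?_, h2, e.symm q', by simpa using h3, (mem_tr _ _ _ _).1 h4⟩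
    simpa [Function.onFun] using h1.lift (fun x => (e.symm x.1, x.2)) fun x y => (k x y).1
  · rintro ⟨q, i, j, h1, h2, q', h3, h4⟩
    refine ⟨e q, i, j, h1.lift (fun x => (e x.1, x.2)) fun x y h => (k _ _).2 (by simpa using h),
      h2, e q', by simpa using h3, by simpa [mem_tr] using h4⟩

def Ins (eM : Q → A → Finset (Q × Bool)) (v : List A) (x y : Q × ℕ) : Prop :=
  ∃ a, 1 ≤ x.2 ∧ v[x.2 - 1]? = some a ∧ ∃ b : Bool, (y.1, b) ∈ eM x.1 a ∧
    y.2 = if b then x.2 + 1 else x.2 - 1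

def Cr (eM : Q → A → Finset (Q × Bool)) (v : List A) (s t : Q × Bool) : Prop :=
  ReflTransGen (Ins eM v) (s.1, if s.2 then v.length else 1) (t.1, if t.2 then v.length + 1 else 0)

theorem get_in (p v s : List A) {i : ℕ} (h1 : p.length < i) (h2 : i ≤ p.length + v.length) :
    (p ++ v ++ s)[i - 1]? = v[i - p.length - 1]? := by
  rw [List.getElem?_append_left (by simp; omega), List.getElem?_append_right (by omega)]
  congr 1
  omega

theorem get_out (p v v' s : List A) (h : v.length = v'.length) {i : ℕ} (h0 : 1 ≤ i)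
    (h1 : ¬(p.length < i ∧ i ≤ p.length + v.length)) :
    (p ++ v ++ s)[i - 1]? = (p ++ v' ++ s)[i - 1]? := by
  rcases le_or_gt i p.length with h2 | h2
  · rw [List.append_assoc, List.append_assoc, List.getElem?_append_left (by omega),
      List.getElem?_append_left (by omega)]
  · rw [List.getElem?_append_right (by simp; omega), List.getElem?_append_right (by simp; omega)]
    simp [h]

theorem ins_lift (p v s : List A) {j : ℕ} (hj : p.length + v.length ≤ j) {x y : Q × ℕ}
    (h : ReflTransGen (Ins eM v) x y) : ReflTransGen (Stp eL eR eU eM (p ++ v ++ s))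
      (x.1, p.length + x.2, j) (y.1, p.length + y.2, j) := by
  refine h.lift (fun x => (x.1, p.length + x.2, j)) ?_
  rintro x y ⟨a, h1, h2, b, h3, h4⟩
  have h5 := (List.getElem?_eq_some_iff.1 h2).1
  refine Or.inr (Or.inr ⟨a, by simp only; omega, ?_, b, ?_, ?_, (max_eq_left ?_).symm⟩)
  · rw [get_in p v s (by simp only; omega) (by simp only; omega), ← h2]
    simp
  · rwa [if_pos (by simp only; omega)]
  · simp only [h4]
    split_ifs <;> omega
  · simp only
    omega

theorem exch {p v v' s : List A} (hl : v.length = v'.length) (hc : Cr eM v = Cr eM v')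
    {x y : Q × ℕ × ℕ} (h : ReflTransGen (Stp eL eR eU eM (p ++ v ++ s)) x y)
    (h1 : p.length + v.length ≤ x.2.2) (h2 : p.length + v.length < x.2.1) :
    p.length + v.length ≤ y.2.2 ∧ if p.length < y.2.1 ∧ y.2.1 ≤ p.length + v.length then
      ∃ c : Q × Bool, ReflTransGen (Stp eL eR eU eM (p ++ v' ++ s)) x
        (c.1, p.length + (if c.2 then v.length else 1), y.2.2) ∧
        ReflTransGen (Ins eM v) (c.1, if c.2 then v.length else 1) (y.1, y.2.1 - p.length)
    else ReflTransGen (Stp eL eR eU eM (p ++ v' ++ s)) x y := by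
  induction h with
  | refl => exact ⟨h1, by rw [if_neg (by omega)]⟩
  | @tail y z _ h ih =>
    obtain ⟨q, i, j⟩ := y
    obtain ⟨q', i', j'⟩ := z
    obtain ⟨a1, a2⟩ := ih
    simp only at a1 a2 ⊢
    have hj : j ≤ j' ∧ (i' = i + 1 ∨ i' + 1 = i) := by
      rcases h with ⟨b1, -, b2, b3⟩ | ⟨b1, -, b2, b3⟩ | ⟨a, b1, -, b, -, b2, b3⟩
      · simp only at b1 b2 b3
        omega
      · simp only at b1 b2 b3
        omega
      · simp only at b1 b2 b3
        cases b <;> simp at b2 <;> omega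
    refine ⟨by omega, ?_⟩
    by_cases hi : p.length < i ∧ i ≤ p.length + v.length
    · rw [if_pos hi] at a2
      obtain ⟨c, c1, c2⟩ := a2
      rcases h with ⟨b1, -⟩ | ⟨b1, -⟩ | ⟨a, b1, b4, b, b5, b2, b3⟩
      · simp only at b1
        omega
      · simp only [List.length_append] at b1
        omega
      simp only at b1 b2 b3 b4 b5
      rw [get_in p v s hi.1 hi.2] at b4
      rw [if_pos (by omega)] at b5
      obtain rfl : j' = j := by omega
      have c3 := c2.tail (c := (q', i' - p.length)) ⟨a, by simp only; omega, b4, b, b5, by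
        simp only [b2]
        split_ifs <;> omega⟩
      split_ifs with h'
      · exact ⟨c, c1, c3⟩
      · have c4 : Cr eM v c (q', b) := by
          unfold Cr
          convert c3
          cases b <;> simp at b2 ⊢ <;> omega
        rw [hc] at c4
        have := ins_lift (eL := eL) (eR := eR) (eU := eU) p v' s (hl ▸ a1) c4
        simp only [← hl] at this
        convert c1.trans this
        cases b <;> simp at b2 ⊢ <;> omega
    · rw [if_neg hi] at a2
      have a3 : ReflTransGen (Stp eL eR eU eM (p ++ v' ++ s)) x (q', i', j') := a2.tail (by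
        rcases h with h | h | ⟨a, b1, b2, b3⟩
        · exact Or.inl h
        · exact Or.inr (Or.inl (by simpa [hl] using h))
        · exact Or.inr (Or.inr ⟨a, b1, get_out p v v' s hl b1 hi ▸ b2, b3⟩))
      split_ifs with h'
      · refine ⟨(q', decide (i' + 1 = i)), ?_, ?_⟩
        · convert a3
          by_cases h : i' + 1 = i <;> simp [h] <;> omega
        · convert ReflTransGen.refl using 2
          by_cases h : i' + 1 = i <;> simp [h] <;> omega
      · exact a3

def Eqv (eL eR : Q → Finset (Q × Bool)) (eU eM : Q → A → Finset (Q × Bool)) (u u' : List A) :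
    Prop := u.length = u'.length ∧ ∀ s x y, u.length ≤ x.2.2 → u.length < x.2.1 →
  u.length < y.2.1 → ReflTransGen (Stp eL eR eU eM (u ++ s)) x y →
    ReflTransGen (Stp eL eR eU eM (u' ++ s)) x y

theorem Eqv.app {u u' v v' : List A} (h : Eqv eL eR eU eM u u') (hl : v.length = v'.length)
    (hc : Cr eM v = Cr eM v') : Eqv eL eR eU eM (u ++ v) (u' ++ v') := by
  refine ⟨by simp [h.1, hl], fun s x y h1 h2 h3 h4 => ?_⟩
  rw [List.length_append] at h1 h2 h3
  rw [List.append_assoc] at h4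
  have := h.2 _ x y (by omega) (by omega) (by omega) h4
  rw [← List.append_assoc] at this
  have h5 := h.1
  have := (exch hl hc this (by omega) (by omega)).2
  rwa [if_neg (by omega)] at this

theorem Eqv.flat {I : Type} {u u' : List A} (h : Eqv eL eR eU eM u u') (f g : I → List A)
    (hl : ∀ i, (f i).length = (g i).length) (hc : ∀ i, Cr eM (f i) = Cr eM (g i)) (l : List I) :
    Eqv eL eR eU eM (u ++ l.flatMap f) (u' ++ l.flatMap g) := by
  induction l generalizing u u' with
  | nil => simpa using h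
  | cons i l ih => simpa using ih (h.app (hl i) (hc i))

def Fr (eL eR : Q → Finset (Q × Bool)) (eU eM : Q → A → Finset (Q × Bool)) (pI : Q) (u : List A)
    (q : Q) : Prop :=
  ∀ s, ReflTransGen (Stp eL eR eU eM (u ++ s)) (pI, 1, 0) (q, u.length + 1, u.length)

theorem pre {u s : List A} (hu : u ≠ []) {y : Q × ℕ × ℕ}
    (h : ReflTransGen (Stp eL eR eU eM (u ++ s)) (pI, 1, 0) y) :
    (y.2.1 ≤ u.length ∧ y.2.2 ≤ u.length ∧
      ∀ s, ReflTransGen (Stp eL eR eU eM (u ++ s)) (pI, 1, 0) y) ∨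
    ∃ q, Fr eL eR eU eM pI u q ∧
      ReflTransGen (Stp eL eR eU eM (u ++ s)) (q, u.length + 1, u.length) y := by
  induction h with
  | refl => exact Or.inl ⟨List.length_pos_iff.2 hu, Nat.zero_le _, fun _ => .refl⟩
  | @tail y z _ h ih =>
    rcases ih with ⟨a1, a2, a3⟩ | ⟨q, a1, a2⟩
    swap
    · exact Or.inr ⟨q, a1, a2.tail h⟩
    have hp := List.length_pos_iff.2 hu
    rcases h with h | ⟨b1, -⟩ | ⟨a, b1, b2, b, b3, b4, b5⟩
    · exact Or.inl ⟨by omega, by omega, fun s => (a3 s).tail (Or.inl h)⟩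
    · rw [List.length_append] at b1
      omega
    have k : ∀ s, ReflTransGen (Stp eL eR eU eM (u ++ s)) (pI, 1, 0) z := fun s' =>
      (a3 s').tail (Or.inr (Or.inr ⟨a, b1, by
        rw [List.getElem?_append_left (by omega)] at b2 ⊢
        exact b2, b, b3, b4, b5⟩))
    rcases le_or_gt z.2.1 u.length with h | h
    · exact Or.inl ⟨h, by omega, k⟩
    · have : z = (z.1, u.length + 1, u.length) := by
        cases b <;> simp at b4 <;> ext <;> simp <;> omega
      rw [this] at k ⊢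
      exact Or.inr ⟨_, k, .refl⟩

theorem fr_uniq (h1 : ∀ p, (eL p).card ≤ 1) (h2 : ∀ p, (eR p).card ≤ 1)
    (h3 : ∀ p a, (eU p a).card ≤ 1) (h4 : ∀ p a, (eM p a).card ≤ 1) {u : List A} (c : A) {q q' : Q}
    (h : Fr eL eR eU eM pI u q) (h' : Fr eL eR eU eM pI u q') : q = q' := by
  have ru : Relator.RightUnique (Stp eL eR eU eM (u ++ [c])) := by
    rintro x ⟨q, i, j⟩ ⟨q', i', j'⟩ (⟨a1, a2, rfl, rfl⟩ | ⟨a1, a2, rfl, rfl⟩ | ⟨a, a1, a2, b, a3, rfl, rfl⟩)
      (⟨b1, b2, rfl, rfl⟩ | ⟨b1, b2, rfl, rfl⟩ | ⟨a', b1, b2, b', b3, rfl, rfl⟩)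
    · cases Finset.card_le_one.1 (h1 _) _ a2 _ b2
      rfl
    · omega
    · omega
    · omega
    · cases Finset.card_le_one.1 (h2 _) _ a2 _ b2
      rfl
    · have := (List.getElem?_eq_some_iff.1 b2).1
      omega
    · omega
    · have := (List.getElem?_eq_some_iff.1 a2).1
      omega
    · cases a2.symm.trans b2
      cases Finset.card_le_one.1 (by split_ifs; exacts [h4 _ _, h3 _ _]) _ a3 _ b3
      rfl
  have mo : ∀ x y, ReflTransGen (Stp eL eR eU eM (u ++ [c])) x y → x.2.2 ≤ y.2.2 := fun x y h => by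
    induction h with
    | refl => rfl
    | tail _ h ih =>
      rcases h with ⟨-, -, -, h⟩ | ⟨-, -, -, h⟩ | ⟨_, -, -, _, -, -, h⟩ <;> omega
  have k : ∀ q q', ReflTransGen (Stp eL eR eU eM (u ++ [c])) (q, u.length + 1, u.length)
      (q', u.length + 1, u.length) → q = q' := fun q q' h => by
    rcases h.cases_head with h | ⟨y, h, h'⟩
    · exact congrArg Prod.fst h
    · have := mo _ _ h'
      rcases h with ⟨h, -⟩ | ⟨h, -⟩ | ⟨_, -, -, _, -, -, h⟩
      · simp at h
      · simp at h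
      · simp only at h this
        omega
  rcases ReflTransGen.total_of_right_unique ru (h [c]) (h' [c]) with h | h
  exacts [k _ _ h, (k _ _ h).symm]

theorem count [Fintype Q] {I J : Type} [Fintype I] (h1 : ∀ p, (eL p).card ≤ 1)
    (h2 : ∀ p, (eR p).card ≤ 1) (h3 : ∀ p a, (eU p a).card ≤ 1) (h4 : ∀ p a, (eM p a).card ≤ 1)
    (u : I → List A) (hu : ∀ S, u S ≠ []) (c : J → A) (he : ∀ S S', Eqv eL eR eU eM (u S) (u S'))
    (hs : ∀ S S', (∀ j, Acc eL eR eU eM pI G (u S ++ [c j]) ↔ Acc eL eR eU eM pI G (u S' ++ [c j])) →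
      S = S') : Fintype.card I ≤ Fintype.card Q + 1 := by
  classical
  set f : I → Option Q := fun S => if h : ∃ q, Fr eL eR eU eM pI (u S) q then some h.choose else none
  have k : ∀ S S', f S = f S' → ∀ j, Acc eL eR eU eM pI G (u S ++ [c j]) →
      Acc eL eR eU eM pI G (u S' ++ [c j]) := by
    rintro S S' h j ⟨q, i, j', a1, a2, a3⟩
    have hl := (he S S').1
    rw [List.length_append] at a2
    rcases pre (hu S) a1 with ⟨b1, -⟩ | ⟨p, b1, b2⟩
    · simp only at b1
      omega
    have b3 : ∃ q, Fr eL eR eU eM pI (u S) q := ⟨p, b1⟩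
    simp only [f, dif_pos b3] at h
    split_ifs at h with b4
    have b5 := b4.choose_spec
    rw [← Option.some.inj h, fr_uniq h1 h2 h3 h4 (c j) b3.choose_spec b1] at b5
    refine ⟨q, i, j', (b5 _).trans ?_, by simp [a2, hl], a3⟩
    rw [← hl]
    exact (he S S').2 _ _ _ le_rfl (Nat.lt_succ_self _) (by simp only; omega) b2
  rw [← Fintype.card_option]
  exact Fintype.card_le_of_injective f fun S S' h => hs S S' fun j => ⟨k _ _ h j, k _ _ h.symm j⟩

end Pool.Agent.H.MP_5436b5_lc
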