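import Pool.Agent.H.MP_5436b5_lc.A

namespace Pool.Agent.H.MP_5436b5_lc

open Relation

abbrev St (p l r : ℕ) := Fin (p + 3) ⊕ (Fin l × Bool) ⊕ Fin r

abbrev Lt (l r : ℕ) := (Fin l → Bool) ⊕ (Fin l × Bool) ⊕ Option (Fin r) ⊕ Fin r

variable {p l r : ℕ}

abbrev idle : St p l r := .inl 0
abbrev cmp : St p l r := .inl 1
abbrev acc : St p l r := .inl 2
abbrev car (c : Fin l × Bool) : St p l r := .inr (.inl c)
abbrev tag (j : Fin r) : St p l r := .inr (.inr j)
abbrev lK (x : Fin l → Bool) : Lt l r := .inl x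
abbrev lB (c : Fin l × Bool) : Lt l r := .inr (.inl c)
abbrev lE (o : Option (Fin r)) : Lt l r := .inr (.inr (.inl o))
abbrev lQ (j : Fin r) : Lt l r := .inr (.inr (.inr j))

def RU (q : St p l r) (a : Lt l r) (t : St p l r × Bool) : Prop :=
  (q = idle ∧ t = (idle, true)) ∨ (q = idle ∧ ((∃ x, a = lK x) ∨ ∃ o, a = lE o) ∧ t = (cmp, true)) ∨
  (∃ c, q = cmp ∧ a = lB c ∧ t = (car c, false)) ∨
  (∃ j, q = cmp ∧ a = lE (some j) ∧ t = (tag j, true)) ∨ (∃ j, q = tag j ∧ t = (tag j, true)) ∨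
  ∃ j, q = tag j ∧ a = lQ j ∧ t = (acc, true)

def RM (q : St p l r) (a : Lt l r) (t : St p l r × Bool) : Prop :=
  (q = cmp ∧ t = (cmp, true)) ∨ (∃ c, q = car c ∧ t = (car c, false)) ∨
  ∃ c y, q = car c ∧ a = lK y ∧ y c.1 = c.2 ∧ t = (cmp, true)

open Classical in
noncomputable def dU (q : St p l r) (a : Lt l r) : Finset (St p l r × Bool) :=
  Finset.univ.filter (RU q a)

open Classical in
noncomputable def dM (q : St p l r) (a : Lt l r) : Finset (St p l r × Bool) :=
  Finset.univ.filter (RM q a)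

def dR (q : St p l r) : Finset (St p l r × Bool) := if q = acc then {(acc, true)} else ∅

def dL (_ : St p l r) : Finset (St p l r × Bool) := ∅

def nx (x : Fin l → Bool) (S : Set (St p l r)) (a : Lt l r) : Set (St p l r) :=
  {t | (∃ q ∈ S, RU q a (t, true)) ∨ (cmp ∈ S ∧ (∃ i, a = lB (i, x i)) ∧ t = cmp)}

def Pj (x : Fin l → Bool) (S : Set (St p l r)) : St p l r → Prop
  | .inr (.inl c) => x c.1 = c.2 → cmp ∈ S
  | q => q ∈ S

theorem tk {w : List (Lt l r)} {j : ℕ} {a : Lt l r} (h : w[j]? = some a) (x : Fin l → Bool)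
    (S : Set (St p l r)) : (w.take (j + 1)).foldl (nx x) S = nx x ((w.take j).foldl (nx x) S) a := by
  rw [List.take_add_one, h]
  simp

theorem sound {x : Fin l → Bool} {w : List (Lt l r)} (hw : ∀ y, lK y ∈ w → y = x)
    {z : St p l r × ℕ × ℕ} (h : ReflTransGen (Stp dL dR dU dM w) (idle, 1, 0) z) :
    z.2.1 ≤ z.2.2 + 1 ∧ z.2.2 ≤ w.length ∧ Pj x ((w.take z.2.2).foldl (nx x) {idle}) z.1 := by
  induction h with
  | refl => simp [Pj]
  | @tail y z _ h ih =>
    obtain ⟨q, i, j⟩ := y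
    obtain ⟨q', i', j'⟩ := z
    obtain ⟨a1, a2, a3⟩ := ih
    rcases h with ⟨-, h, -⟩ | ⟨-, h, -⟩ | ⟨a, b1, b2, b, b3, b4, b5⟩
    · simp [dL] at h
    · unfold dR at h
      split_ifs at h <;> simp at h
    simp only at a1 a2 a3 b1 b2 b3 b4 b5 ⊢
    have b6 := (List.getElem?_eq_some_iff.1 b2).1
    refine ⟨by split_ifs at b4 <;> omega, by omega, ?_⟩
    split_ifs at b3 with h
    · obtain rfl : j' = j := by omega
      simp only [dM, Finset.mem_filter, Finset.mem_univ, true_and] at b3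
      rcases b3 with ⟨rfl, h⟩ | ⟨c, rfl, h⟩ | ⟨c, y, rfl, rfl, h1, h⟩ <;> cases h
      · exact a3
      · exact a3
      · exact a3 (hw y (List.mem_of_getElem? b2) ▸ h1)
    · obtain rfl : i = j + 1 := by omega
      obtain rfl : j' = j + 1 := by omega
      rw [tk (j := j) b2]
      simp only [dU, Finset.mem_filter, Finset.mem_univ, true_and] at b3
      have k : b = true → q ∈ (w.take j).foldl (nx x) {idle} →
          q' ∈ nx x ((w.take j).foldl (nx x) {idle}) a := fun h h' => Or.inl ⟨q, h', h ▸ b3⟩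
      rcases b3 with ⟨rfl, h⟩ | ⟨rfl, -, h⟩ | ⟨c, rfl, rfl, h⟩ | ⟨c, rfl, -, h⟩ | ⟨c, rfl, h⟩ |
        ⟨c, rfl, -, h⟩ <;> cases h
      · exact k rfl a3
      · exact k rfl a3
      · exact fun h => Or.inr ⟨a3, ⟨c.1, by rw [h]⟩, rfl⟩
      · exact k rfl a3
      · exact k rfl a3
      · exact k rfl a3

theorem stM {w : List (Lt l r)} {t J : ℕ} (h1 : t < J) (h2 : J ≤ w.length) {q q' : St p l r}
    {b : Bool} (h : RM q w[t] (q', b)) :
    Stp dL dR dU dM w (q, t + 1, J) (q', if b then t + 2 else t, J) :=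
  Or.inr (Or.inr ⟨w[t], by simp, by simp, b, by
    rw [if_pos (by simp only; omega)]
    simpa [dM], by simp, by simp only; omega⟩)

theorem stU {w : List (Lt l r)} {t : ℕ} {a : Lt l r} (h2 : w[t]? = some a) {q q' : St p l r}
    {b : Bool} (h : RU q a (q', b)) :
    Stp dL dR dU dM w (q, t + 1, t) (q', if b then t + 2 else t, t + 1) :=
  Or.inr (Or.inr ⟨a, by simp, by simpa, b, by
    rw [if_neg (by simp)]
    simpa [dU], by simp, by simp⟩)

theorem goL {w : List (Lt l r)} {t J : ℕ} (h1 : t < J) (h2 : J ≤ w.length) (c : Fin l × Bool) :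
    ReflTransGen (Stp dL dR dU dM w) ((car c : St p l r), t + 1, J) (car c, 1, J) := by
  induction t with
  | zero => exact .refl
  | succ t ih =>
    exact .head (stM (b := false) h1 h2 (Or.inr (Or.inl ⟨c, rfl, rfl⟩))) (ih (by omega))

theorem goR {w : List (Lt l r)} {t J : ℕ} (h1 : t + 1 ≤ J) (h2 : J ≤ w.length) :
    ReflTransGen (Stp dL dR dU dM w) ((cmp : St p l r), 2, J) (cmp, t + 2, J) := by
  induction t with
  | zero => exact .refl
  | succ t ih => exact (ih (by omega)).tail (stM (b := true) h1 h2 (Or.inl ⟨rfl, rfl⟩))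

theorem compl {x : Fin l → Bool} {u : List (Lt l r)} {j : ℕ} (hj : j ≤ (lK x :: u).length)
    {q : St p l r} (h : q ∈ ((lK x :: u).take j).foldl (nx x) {idle}) :
    ReflTransGen (Stp dL dR dU dM (lK x :: u)) (idle, 1, 0) (q, j + 1, j) := by
  induction j generalizing q with
  | zero =>
    obtain rfl : q = idle := by simpa using h
    exact .refl
  | succ j ih =>
    have h0 := List.getElem?_eq_getElem (l := lK x :: u) (i := j) hj
    rw [tk h0] at h
    rcases h with ⟨q', h1, h2⟩ | ⟨h1, ⟨i, h2⟩, rfl⟩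
    · exact (ih (by omega) h1).tail (stU h0 h2)
    · rcases j with _ | j
      · simp at h2
      rw [h2] at h0
      refine (((ih (by omega) h1).tail (stU (b := false) h0
        (Or.inr (Or.inr (Or.inl ⟨_, rfl, rfl, rfl⟩))))).trans (goL (by omega) hj _)).trans
        (.head (stM (t := 0) (b := true) (by omega) hj
          (Or.inr (Or.inr ⟨_, x, rfl, rfl, rfl, rfl⟩))) (goR (by omega) hj))

theorem acc_iff {x : Fin l → Bool} {u : List (Lt l r)} (hw : ∀ y, lK y ∉ u) :
    Acc dL dR dU dM (idle : St p l r) {acc} (lK x :: u) ↔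
      (acc : St p l r) ∈ (lK x :: u).foldl (nx x) {idle} := by
  constructor
  · rintro ⟨q, i, j, h1, h2, q', -, h3⟩
    obtain ⟨a1, a2, a3⟩ := sound (x := x) (fun y h => by simpa [hw] using h) h1
    simp only at a1 a2 a3
    rw [List.take_of_length_le (by omega)] at a3
    unfold dR at h3
    split_ifs at h3 with h
    · subst h
      exact a3
    · simp at h3
  · intro h
    exact ⟨acc, _, _, compl le_rfl (by rwa [List.take_length]), rfl, acc, by simp, by simp [dR]⟩

def sub (y : Fin l → Bool) (o : Option (Fin r)) : List (Lt l r) :=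
  (List.finRange l).map (fun i => lB (i, y i)) ++ [lE o]

def Spec (p : ℕ) (x : Fin l → Bool) (v : List (Lt l r)) (Z : Fin r → Prop) : Prop :=
  ∀ S : Set (St p l r), idle ∈ S → cmp ∈ S → idle ∈ v.foldl (nx x) S ∧ cmp ∈ v.foldl (nx x) S ∧
    ∀ j, tag j ∈ v.foldl (nx x) S ↔ tag j ∈ S ∨ Z j

theorem bits (x y : Fin l → Bool) (L : List (Fin l)) (S : Set (St p l r)) (h : idle ∈ S) :
    idle ∈ (L.map fun i => lB (i, y i)).foldl (nx x) S ∧
    (cmp ∈ (L.map fun i => lB (i, y i)).foldl (nx x) S ↔ cmp ∈ S ∧ ∀ i ∈ L, y i = x i) ∧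
    ∀ j, tag j ∈ (L.map fun i => lB (i, y i)).foldl (nx x) S ↔ tag j ∈ S := by
  induction L generalizing S with
  | nil => simpa
  | cons i L ih =>
    obtain ⟨a1, a2, a3⟩ := ih (nx x S (lB (i, y i))) (Or.inl ⟨_, h, Or.inl ⟨rfl, rfl⟩⟩)
    refine ⟨a1, ?_, fun j => (a3 j).trans ?_⟩
    · rw [List.map_cons, List.foldl_cons, a2]
      simp [nx, RU, and_assoc]
    · simp [nx, RU]

theorem spec_sub (x y : Fin l → Bool) (o : Option (Fin r)) :
    Spec p x (sub y o) fun j => y = x ∧ o = some j := by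
  intro S h1 h2
  obtain ⟨a1, a2, a3⟩ := bits x y (List.finRange l) S h1
  simp only [sub, List.foldl_append, List.foldl_cons, List.foldl_nil]
  generalize List.foldl (nx x) S _ = T at a1 a2 a3 ⊢
  refine ⟨Or.inl ⟨_, a1, Or.inl ⟨rfl, rfl⟩⟩,
    Or.inl ⟨_, a1, Or.inr (Or.inl ⟨rfl, Or.inr ⟨_, rfl⟩, rfl⟩)⟩, fun j => ?_⟩
  simp [h2, ← funext_iff] at a2
  simp [nx, RU, and_or_left, exists_or, a2, a3, or_comm]

theorem spec_flat {I : Type} {x : Fin l → Bool} {f : I → List (Lt l r)} {Z : I → Fin r → Prop}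
    (h : ∀ i, Spec p x (f i) (Z i)) (L : List I) :
    Spec p x (L.flatMap f) fun j => ∃ i ∈ L, Z i j := by
  induction L with
  | nil => exact fun S h1 h2 => by simp [h1, h2]
  | cons i L ih =>
    intro S h1 h2
    obtain ⟨a1, a2, a3⟩ := h i S h1 h2
    obtain ⟨b1, b2, b3⟩ := ih _ a1 a2
    simp only [List.flatMap_cons, List.foldl_append]
    exact ⟨b1, b2, fun j => by simp [b3, a3, or_assoc]⟩

noncomputable def blk (Y : (Fin l → Bool) → Bool) (j : Fin r) : List (Lt l r) :=
  Finset.univ.toList.flatMap fun y => sub y (if Y y then some j else none)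

theorem acc_blk (x : Fin l → Bool) (Y : Fin r → (Fin l → Bool) → Bool) (j : Fin r) :
    Acc dL dR dU dM (idle : St p l r) {acc}
      (([lK x] ++ (List.finRange r).flatMap fun j => blk (Y j) j) ++ [lQ j]) ↔ Y j x = true := by
  rw [List.singleton_append, List.cons_append, acc_iff (by simp [blk, sub])]
  obtain ⟨-, -, h⟩ := spec_flat (fun j => spec_flat
    (fun y => spec_sub (p := p) x y (if Y j y then some j else none)) Finset.univ.toList)
    (List.finRange r) (nx x {idle} (lK x)) (by simp [nx, RU]) (by simp [nx, RU])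
  simp only [List.foldl_cons, List.foldl_append, List.foldl_nil, blk]
  generalize List.foldl (nx x) _ _ = T at h ⊢
  simp [nx, RU] at h
  have : (2 : Fin (p + 3)) ≠ 0 := by simp [Fin.ext_iff, Nat.mod_eq_of_lt]
  simp [nx, RU, and_or_left, exists_or, h, this]

theorem lower (s p : ℕ) {m : ℕ} {eL eR : Fin m → Finset (Fin m × Bool)}
    {eU eM : Fin m → Lt (3 * s + 3) (s + 1) → Finset (Fin m × Bool)} {pI : Fin m}
    {G : Finset (Fin m)} (h1 : ∀ p, (eL p).card ≤ 1) (h2 : ∀ p, (eR p).card ≤ 1)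
    (h3 : ∀ p a, (eU p a).card ≤ 1) (h4 : ∀ p a, (eM p a).card ≤ 1)
    (h : ∀ w, Acc dL dR dU dM (idle : St p _ _) {acc} w ↔ Acc eL eR eU eM pI G w) : 2 ^ s ≤ m := by
  classical
  by_contra hm
  push Not at hm
  obtain ⟨Y, Y', a1, a2⟩ := Fintype.exists_ne_map_eq_of_card_lt
    (fun (Y : (Fin (3 * s + 3) → Bool) → Bool) (j : Fin (s + 1)) => Cr eM (blk Y j)) (by
      simp only [Fintype.card_fun, Fintype.card_prop, Fintype.card_prod, Fintype.card_fin,
        Fintype.card_bool, ← pow_mul]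
      refine Nat.pow_lt_pow_right (by norm_num) ?_
      have : s + 1 ≤ 2 ^ s := Nat.lt_two_pow_self
      calc m * 2 * (m * 2) * (s + 1) ≤ 2 ^ s * 2 * (2 ^ s * 2) * 2 ^ s := by gcongr
        _ < 2 ^ s * 2 * (2 ^ s * 2) * 2 ^ s * 2 := by
          exact lt_mul_of_one_lt_right (by positivity) (by norm_num)
        _ = _ := by ring)
  obtain ⟨x, hx⟩ := Function.ne_iff.1 a1
  have := count (pI := pI) (G := G) h1 h2 h3 h4
    (fun S : Fin (s + 1) → Bool => [lK x] ++ (List.finRange _).flatMap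
      fun j => blk (if S j then Y else Y') j) (by simp) lQ
    (fun S S' => Eqv.flat ⟨rfl, fun _ _ _ _ _ _ h => h⟩ _ _ (fun j => by
      simp [blk, sub, List.length_flatMap]) (fun j => by
        have := congrFun a2 j
        split_ifs <;> simp_all) _)
    fun S S' k => funext fun j => by
      have := k j
      rw [← h, ← h, acc_blk x fun j => if S j then Y else Y',
        acc_blk x fun j => if S' j then Y else Y'] at this
      revert this
      cases S j <;> cases S' j <;> simp [hx, hx.symm]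
  simp only [Fintype.card_fun, Fintype.card_fin, Fintype.card_bool, pow_succ] at this
  omega

end Pool.Agent.H.MP_5436b5_lc
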